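import Pool.Agent.N124.CU.Stm2

set_option autoImplicit false

/-!
# Project CU (helper124), `S_pairB` and `S_prod` (helper539)
-/

namespace Pool.Agent.N539.CU

open Filter Topology Pool.Agent.N124.CU

theorem t_pairB : Pool.Agent.N124.CU.S_pairB := by
  intro L _ g e2 e3 he2 he3 u3 v3 u2 v2 h a3 a2 c y3 y2 H3 H2 hy3 hy2 ma3 ma2 mc my3 my2 hc
  obtain ⟨U3, V3⟩ := H3
  obtain ⟨U2, V2⟩ := H2
  have s0 : Tendsto (fun s : ℂ => s) (𝓝[≠] 0) (𝓝 0) := tendsto_nhdsWithin_of_tendsto_nhds tendsto_id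
  have key : ∀ (u : ℂ → ℂ) (a : ℂ), Tendsto (fun s => (u s - 1) / s) (𝓝[≠] 0) (𝓝 a) →
      Tendsto u (𝓝[≠] 0) (𝓝 1) := by
    intro u a hu
    have h1 : Tendsto (fun s => s * ((u s - 1) / s) + 1) (𝓝[≠] (0 : ℂ)) (𝓝 (0 * a + 1)) :=
      (s0.mul hu).add_const 1
    rw [zero_mul, zero_add] at h1
    refine h1.congr' ?_
    filter_upwards [self_mem_nhdsWithin] with s hs
    have hs' : s ≠ 0 := hs
    field_simp
    ring
  have l3 := key u3 a3 U3
  have l2 := key u2 a2 U2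
  have hd : Tendsto (fun s => v2 s - v3 s) (𝓝[≠] 0) (𝓝 (y2 - y3)) := by
    refine (hy2.sub hy3).congr ?_
    intro s
    ring
  have hdu : Tendsto (fun s => (u3 s - u2 s) / s) (𝓝[≠] 0) (𝓝 (a3 - a2)) := by
    refine (U3.sub U2).congr ?_
    intro s
    ring
  -- first bracket
  have hA : Tendsto (fun s => v2 s * u3 s - u2 s * v3 s) (𝓝[≠] 0)
      (𝓝 ((y2 - y3) * 1 + c * (a3 - a2))) := by
    refine ((hd.mul l3).add (V3.mul hdu)).congr' ?_
    filter_upwards [self_mem_nhdsWithin] with s hs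
    have hs' : s ≠ 0 := hs
    field_simp
    ring
  have hB : Tendsto (fun s => (e2 + u2 s * v2 s) * u3 s - (e3 + u3 s * v3 s) * u2 s) (𝓝[≠] 0)
      (𝓝 (1 * 1 * (y2 - y3) + (e2 * 1 - e3 * 1))) := by
    refine (((l2.mul l3).mul hd).add ((l3.const_mul e2).sub (l2.const_mul e3))).congr ?_
    intro s
    ring
  have hC : Tendsto (fun s => s * ((e3 + u3 s * v3 s) * v2 s - (e2 + u2 s * v2 s) * v3 s))
      (𝓝[≠] 0) (𝓝 (c * c * (a3 - a2) + (e3 * c - e2 * c))) := by
    refine (((V2.mul V3).mul hdu).add ((V2.const_mul e3).sub (V3.const_mul e2))).congr' ?_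
    filter_upwards [self_mem_nhdsWithin] with s hs
    have hs' : s ≠ 0 := hs
    field_simp
    ring
  refine ⟨-((y2 - y3 + e2 - e3) * (c * (c * (a3 - a2) + e3 - e2))), ?_, ?_⟩
  · refine neg_ne_zero.mpr (mul_ne_zero ?_ (mul_ne_zero hc ?_))
    · intro h0
      apply he2
      have : e2 = e3 + y3 - y2 := by linear_combination h0
      rw [this]
      exact L.sub_mem (L.add_mem he3 my3) my2
    · intro h0
      apply he2
      have : e2 = c * (a3 - a2) + e3 := by linear_combination (-1) * h0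
      rw [this]
      exact L.add_mem (L.mul_mem mc (L.sub_mem ma3 ma2)) he3
  · have hfin := (((s0.const_mul g).mul (hA.mul hA))).sub (hB.mul hC)
    have e : -((y2 - y3 + e2 - e3) * (c * (c * (a3 - a2) + e3 - e2))) =
        g * 0 * (((y2 - y3) * 1 + c * (a3 - a2)) * ((y2 - y3) * 1 + c * (a3 - a2))) -
          (1 * 1 * (y2 - y3) + (e2 * 1 - e3 * 1)) * (c * c * (a3 - a2) + (e3 * c - e2 * c)) := by
      ring
    rw [e]
    refine hfin.congr ?_
    intro s
    unfold FF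
    rw [zpow_one]
    ring

theorem t_prod : Pool.Agent.N124.CU.S_prod := by
  intro x z k3 k2 u3 v3 u2 v2 a3 c3 a2 c2 D3 D2 n H
  choose C hC0 hC using H
  refine ⟨∏ i, ∏ j, C i j, ?_, ?_⟩
  · exact Finset.prod_ne_zero_iff.mpr fun i _ => Finset.prod_ne_zero_iff.mpr fun j _ => hC0 i j
  · have h1 : Tendsto (fun s => ∏ i, ∏ j, (s ^ n i j * Fx x (u3 i s) (v3 i s) (u2 j s) (v2 j s)))
        (𝓝[≠] 0) (𝓝 (∏ i, ∏ j, C i j)) :=
      tendsto_finsetProd _ fun i _ => tendsto_finsetProd _ fun j _ => hC i j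
    refine h1.congr' ?_
    filter_upwards [D3.1, D2.1, self_mem_nhdsWithin] with s h3 h2 hs
    have hs' : s ≠ 0 := hs
    unfold NN
    rw [h3]
    have e1 : ∀ i, (arm2 x).Arm (z + s) (fun u2 v2 => Fx x (u3 i s) (v3 i s) u2 v2) =
        ∏ j, Fx x (u3 i s) (v3 i s) (u2 j s) (v2 j s) := fun i => h2 _
    simp only [e1]
    have e2 : ∀ (m : ℕ) (k : Fin m → ℤ), s ^ (∑ i, k i) = ∏ i, s ^ k i := by
      intro m k
      induction m with
      | zero => simp
      | succ m ih =>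
        rw [Fin.sum_univ_succ, Fin.prod_univ_succ, zpow_add₀ hs', ih]
    rw [e2, ← Finset.prod_mul_distrib]
    refine Finset.prod_congr rfl fun i _ => ?_
    rw [e2, ← Finset.prod_mul_distrib]

end Pool.Agent.N539.CU
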